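import Pool.Agent.Helper79.GS.St5
import Pool.Agent.Helper79.GS.Lib

/-!
# Project GS (MP_c2d095_lc): module BND
-/

set_option autoImplicit false

namespace Pool.Agent.Helper60.GS

open Pool.Agent.Helper79.GS
open Pool.Agent.Helper19.SK Pool.Agent.Helper73.DC Finset
open scoped Classical

private lemma n_le (w : List (Fin 5)) : nW w ≤ w.length := by
  have h := (tL7 w.length (fun i => lett w i = cd (4 : Fin 5) + 1)).2.2.2
  unfold nW pos1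
  omega

private lemma big {n l : ℕ} (h : n ≤ l) :
    14 * (32 * (LL n + 1) ^ 2 + l) ≤ (l + 2) ^ 16 := by
  set X := l + 2 with hX
  have h1 : LL n + 1 ≤ 2 * X ^ 2 := by
    unfold LL
    have : n * n ≤ l * l := Nat.mul_le_mul h h
    rw [hX]
    nlinarith
  have h2 : (LL n + 1) ^ 2 ≤ 4 * X ^ 4 := by
    calc (LL n + 1) ^ 2 ≤ (2 * X ^ 2) ^ 2 := Nat.pow_le_pow_left h1 2
      _ = 4 * X ^ 4 := by ring
  have hX2 : 2 ≤ X := by omega
  have h3 : l ≤ X ^ 4 := by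
    calc l ≤ X := by omega
      _ ≤ X ^ 4 := Nat.le_self_pow (by norm_num) X
  have h4 : 2 ^ 11 ≤ X ^ 11 := Nat.pow_le_pow_left hX2 11
  have h5 : X ^ 15 ≤ X ^ 16 := Nat.pow_le_pow_right (by omega) (by norm_num)
  have h6 : 14 * (32 * (LL n + 1) ^ 2 + l) ≤ 1806 * X ^ 4 := by omega
  have h7 : 1806 * X ^ 4 ≤ X ^ 11 * X ^ 4 := Nat.mul_le_mul_right _ (by omega)
  have h8 : X ^ 11 * X ^ 4 = X ^ 15 := by ring
  omega

private lemma pow_le_N (w : List (Fin 5)) :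
    2 ^ (14 * (32 * (LL (nW w) + 1) ^ 2 + w.length)) ≤ NN 16 w := by
  have h := big (n_le w)
  unfold NN
  calc 2 ^ (14 * (32 * (LL (nW w) + 1) ^ 2 + w.length)) ≤ 2 ^ ((w.length + 2) ^ 16) :=
        Nat.pow_le_pow_right (by norm_num) h
    _ ≤ (w.length + 2) ^ ((w.length + 2) ^ 16) := Nat.pow_le_pow_left (by omega) _

private lemma pw_eq {N b e : ℕ} (h : b ^ e ≤ N) : pw N b e = b ^ e := by
  unfold pw
  exact min_eq_left (by omega)

private lemma p2 (w : List (Fin 5)) {e : ℕ} (h : e ≤ 14 * (32 * (LL (nW w) + 1) ^ 2 + w.length)) :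
    pw (NN 16 w) 2 e = 2 ^ e :=
  pw_eq ((Nat.pow_le_pow_right (by norm_num) h).trans (pow_le_N w))

private lemma three_le (e : ℕ) : 3 ^ e ≤ 2 ^ (2 * e) := by
  rw [pow_mul]
  exact Nat.pow_le_pow_left (by norm_num) e

private lemma p3 (w : List (Fin 5)) {e : ℕ} (h : e ≤ 7 * (32 * (LL (nW w) + 1) ^ 2 + w.length)) :
    pw (NN 16 w) 3 e = 3 ^ e := by
  apply pw_eq
  calc 3 ^ e ≤ 2 ^ (2 * e) := three_le e
    _ ≤ 2 ^ (14 * (32 * (LL (nW w) + 1) ^ 2 + w.length)) :=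
        Nat.pow_le_pow_right (by norm_num) (by omega)
    _ ≤ NN 16 w := pow_le_N w

private lemma Xb_eq (L : ℕ) : Xb L = 2 ^ ((7 * L + 7) * L + 2 * (8 * L ^ 2 + 9 * L + 2)) := by
  unfold Xb Qb
  rw [← pow_mul, ← pow_add, ← pow_add]
  congr 1
  ring

theorem hBND : StBND := by
  intro w
  have hnl := n_le w
  set n := nW w with hn
  set l := w.length with hl
  set L := LL n with hL
  have hLn : L = 2 * (n * n) + 1 := rfl
  have hsq : (L + 1) ^ 2 = L ^ 2 + 2 * L + 1 := by ring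
  have hL1 : L ≤ L ^ 2 := Nat.le_self_pow (by norm_num) L
  set K := 32 * (L + 1) ^ 2 + l with hK
  have e2 : ∀ e, e ≤ 14 * K → pw (NN 16 w) 2 e = 2 ^ e := fun e h => p2 w h
  have e3 : ∀ e, e ≤ 7 * K → pw (NN 16 w) 3 e = 3 ^ e := fun e h => p3 w h
  have hPh : PhN (NN 16 w) w = 2 ^ K := e2 K (by omega)
  have hx : (7 * L + 7) * L + 2 * (8 * L ^ 2 + 9 * L + 2) = 23 * L ^ 2 + 25 * L + 4 := by ring
  have h3n : 2 * 3 ^ (n * n) ≤ 2 ^ L := by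
    calc 2 * 3 ^ (n * n) ≤ 2 * 2 ^ (2 * (n * n)) := Nat.mul_le_mul_left _ (three_le _)
      _ = 2 ^ L := by rw [hLn, pow_succ]; ring
  have hnm : nmN (NN 16 w) w = 2 ^ L := e2 L (by omega)
  have h3pos : 1 ≤ 3 ^ (n * n) := Nat.one_le_pow _ _ (by norm_num)
  have lt2 : ∀ {e f : ℕ}, e < f → 2 ^ e < 2 ^ f := fun h => Nat.pow_lt_pow_right (by norm_num) h
  have le2 : ∀ {e f : ℕ}, e ≤ f → 2 ^ e ≤ 2 ^ f := fun h => Nat.pow_le_pow_right (by norm_num) h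
  have hKlt : K < 2 ^ K := Nat.lt_two_pow_self
  refine ⟨e2, e3, hPh, ?_, ?_, h3n, hnm, ?_, ?_, ?_, ?_, ?_, ?_, ?_, ?_, ?_, ?_, ?_, hnl⟩
  · rw [hPh, ← pow_mul, mul_comm]
    exact pow_le_N w
  · show pw (NN 16 w) 3 (n * n) = 3 ^ (n * n)
    exact e3 (n * n) (by omega)
  · unfold SdN
    rw [hnm]
  · exact e2 _ (by omega)
  · rw [Xb_eq]
    exact e2 _ (by rw [hx]; omega)
  · rw [hPh]
    have h1 : (3 : ℕ) ^ (n * n) + 2 ≤ 4 * 2 ^ L := by
      have : (2 : ℕ) ≤ 2 * 3 ^ (n * n) := by omega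
      omega
    calc 3 ^ (n * n) + 2 ≤ 4 * 2 ^ L := h1
      _ = 2 ^ (L + 2) := by rw [pow_add]; ring
      _ < 2 ^ K := lt2 (by omega)
  · rw [hPh]
    have h1 : 1 ≤ 2 ^ L := Nat.one_le_two_pow
    calc (2 ^ L + 1) * (2 ^ L + 2) ≤ (2 * 2 ^ L) * (4 * 2 ^ L) :=
          Nat.mul_le_mul (by omega) (by omega)
      _ = 2 ^ (L + L + 3) := by rw [pow_add, pow_add]; ring
      _ < 2 ^ K := lt2 (by omega)
  · rw [hPh, Xb_eq, hx]
    exact lt2 (by omega)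
  · rw [hPh]
    unfold Qb
    exact lt2 (by omega)
  · rw [hPh]
    have h1 : mW w ≤ l := by
      unfold mW
      omega
    have h2 : l < 2 ^ l := Nat.lt_two_pow_self
    have h3 : 2 * (n * n + 1) ^ 2 ≤ (L + 1) ^ 2 := by
      have : L + 1 = 2 * (n * n + 1) := by omega
      rw [this]
      nlinarith
    have h4 : 2 * (n * n + 1) ^ 2 < 2 ^ (32 * (L + 1) ^ 2) := by
      calc 2 * (n * n + 1) ^ 2 ≤ (L + 1) ^ 2 := h3
        _ ≤ 32 * (L + 1) ^ 2 := by omega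
        _ < 2 ^ (32 * (L + 1) ^ 2) := Nat.lt_two_pow_self
    show mW w + 2 * (nW w * nW w + 1) ^ 2 < 2 ^ K
    rw [hK, pow_add]
    have h5 : mW w + 1 ≤ 2 ^ l := by omega
    have h6 : 2 * (n * n + 1) ^ 2 + 1 ≤ 2 ^ (32 * (L + 1) ^ 2) := h4
    have h7 := Nat.mul_le_mul h6 h5
    have h8 : mW w + 2 * (n * n + 1) ^ 2 < (2 * (n * n + 1) ^ 2 + 1) * (mW w + 1) := by
      nlinarith [Nat.zero_le (2 * (n * n + 1) ^ 2 * mW w)]
    exact lt_of_lt_of_le h8 h7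
  · rw [hPh]
    omega
  · rw [hPh]
    omega
  · rw [hPh]
    calc 16 = 2 ^ 4 := by norm_num
      _ ≤ 2 ^ K := le2 (by omega)

end Pool.Agent.Helper60.GS
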