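import Pool.Agent.Helper14.GS.St

set_option autoImplicit false

namespace Pool.Agent.Helper60.GS

open Pool.Agent.Helper14.GS

theorem C2 : StC2 := by
  intro p q a b a' b' hp hq ha haa hb hb' hc hc' hd0 hd1 he0 he1
  have hp2 : Real.log 2 ≤ Real.log p := Real.log_le_log (by norm_num) (by exact_mod_cast hp.two_le)
  have hq2 : Real.log 2 ≤ Real.log q := Real.log_le_log (by norm_num) (by exact_mod_cast hq.two_le)
  have hl2 : (0.6931471803 : ℝ) < Real.log 2 := Real.log_two_gt_d9
  have hlp : 0 < Real.log p := by linarith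
  have hlq : 0 < Real.log q := by linarith
  have haR : (5 : ℝ) ≤ a := by exact_mod_cast ha
  have haaR : (a : ℝ) < a' := by exact_mod_cast haa
  have ha0 : (0 : ℝ) < a := by linarith
  have ha0' : (0 : ℝ) < a' := by linarith
  set δ : ℝ := b * Real.log q - a * Real.log p with hδ
  set δ' : ℝ := b' * Real.log q - a' * Real.log p with hδ'
  set T : ℝ := (a * Real.log p) ^ (-(3 : ℝ)) with hT
  have hT0 : 0 < T := Real.rpow_pos_of_pos (by positivity) _
  have hTT : (a' * Real.log p) ^ (-(3 : ℝ)) ≤ T := by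
    apply Real.rpow_le_rpow_of_nonpos (by positivity) _ (by norm_num)
    exact mul_le_mul_of_nonneg_right haaR.le hlp.le
  have hid : ((a' * b - a * b' : ℤ) : ℝ) * Real.log q = a' * δ - a * δ' := by
    push_cast; rw [hδ, hδ']; ring
  have hne : (a' * b - a * b' : ℤ) ≠ 0 := by
    intro h0
    have h1 : a' * b = a * b' := by
      have : ((a' * b : ℕ) : ℤ) = ((a * b' : ℕ) : ℤ) := by push_cast; linarith
      exact_mod_cast this
    have h2 : a ∣ a' := by
      have : a ∣ a' * b := ⟨b', h1⟩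
      exact hc.dvd_of_dvd_mul_right this
    have h3 : a' ∣ a := by
      have : a' ∣ a * b' := ⟨b, h1.symm⟩
      exact hc'.dvd_of_dvd_mul_right this
    have := Nat.dvd_antisymm h2 h3
    omega
  have habs : (1 : ℝ) ≤ |((a' * b - a * b' : ℤ) : ℝ)| := by
    have := Int.one_le_abs hne
    exact_mod_cast this
  have h1 : Real.log q ≤ |a' * δ - a * δ'| := by
    rw [← hid, abs_mul, abs_of_pos hlq]
    nlinarith
  have h2 : |a' * δ - a * δ'| ≤ a' * T := by
    have e1 : a' * δ ≤ a' * T := by nlinarith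
    have e2 : a * δ' ≤ a' * T := by nlinarith
    have e3 : 0 ≤ a' * δ := by positivity
    have e4 : 0 ≤ a * δ' := by positivity
    rw [abs_le]
    constructor <;> linarith
  have h3 : Real.log q ≤ a' * T := h1.trans h2
  have hT3 : T * (a * Real.log p) ^ 3 = 1 := by
    rw [hT, ← Real.rpow_natCast, ← Real.rpow_add (by positivity)]
    norm_num
  have hX : 0 < (a * Real.log p) ^ 3 := by positivity
  have h4 : Real.log q * (a * Real.log p) ^ 3 ≤ a' := by
    calc Real.log q * (a * Real.log p) ^ 3 ≤ (a' * T) * (a * Real.log p) ^ 3 :=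
          mul_le_mul_of_nonneg_right h3 hX.le
      _ = a' * (T * (a * Real.log p) ^ 3) := by ring
      _ = a' := by rw [hT3, mul_one]
  have h5 : (1 / 5 : ℝ) ≤ Real.log q * (Real.log p) ^ 3 := by
    have e1 : (0.69 : ℝ) ≤ Real.log q := by linarith
    have e2 : (0.69 : ℝ) ^ 3 ≤ (Real.log p) ^ 3 := pow_le_pow_left₀ (by norm_num) (by linarith) 3
    have e3 : (0.69 : ℝ) * (0.69 : ℝ) ^ 3 ≤ Real.log q * (Real.log p) ^ 3 :=
      mul_le_mul e1 e2 (by norm_num) hlq.le
    refine le_trans (by norm_num) e3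
  have h6 : (a : ℝ) ^ 2 ≤ a' := by
    have e1 : Real.log q * (a * Real.log p) ^ 3 = (Real.log q * (Real.log p) ^ 3) * a ^ 3 := by ring
    rw [e1] at h4
    have e2 : (1 / 5 : ℝ) * a ^ 3 ≤ (Real.log q * (Real.log p) ^ 3) * a ^ 3 :=
      mul_le_mul_of_nonneg_right h5 (by positivity)
    have e3 : (a : ℝ) ^ 2 ≤ (1 / 5 : ℝ) * a ^ 3 := by
      have : (0 : ℝ) ≤ a ^ 2 * (a - 5) := mul_nonneg (by positivity) (by linarith)
      nlinarith
    linarith
  exact_mod_cast h6

end Pool.Agent.Helper60.GS
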