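import Pool.Agent.Helper79.GS.St2

/-!
# Project GS (MP_c2d095_lc), module ONE
-/

set_option autoImplicit false

namespace Pool.Agent.Helper60.GS

open Pool.Agent.Helper79.GS Pool.Agent.Helper19.SK

section

variable {V : Type} [Finite V] (G : SimpleGraph V)

/-- number of empty points -/
noncomputable def em (Q : Pos V) : ℕ := ({v | Q v = none} : Set V).ncard

/-- number of eyes -/
noncomputable def mu (Q : Pos V) : ℕ := (eyes G Q true).ncard + (eyes G Q false).ncard

/-- the potential -/
noncomputable def phi (Q : Pos V) : ℕ :=
  em Q * (2 * Nat.card V + 1) + (2 * Nat.card V - mu G Q)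

private theorem mu_eq (Q : Pos V) (c : Bool) :
    mu G Q = (eyes G Q c).ncard + (eyes G Q (!c)).ncard := by
  unfold mu
  cases c
  · rw [add_comm]; rfl
  · rfl

private theorem ncard_le' (s : Set V) : s.ncard ≤ Nat.card V := by
  rw [← Set.ncard_univ]
  exact Set.ncard_le_ncard (Set.subset_univ s) (Set.toFinite _)

private theorem mu_le (Q : Pos V) : mu G Q ≤ 2 * Nat.card V := by
  unfold mu
  have h1 := ncard_le' (eyes G Q true)
  have h2 := ncard_le' (eyes G Q false)
  omega

private theorem phi_le (Q : Pos V) :
    phi G Q ≤ Nat.card V * (2 * Nat.card V + 1) + 2 * Nat.card V := by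
  unfold phi
  have h1 : em Q ≤ Nat.card V := ncard_le' _
  have h2 := Nat.mul_le_mul_right (2 * Nat.card V + 1) h1
  omega

private theorem step {Q : Pos V} (hA : Alive G Q) {c : Bool} {e : V} (he : Q e = none)
    (hone : ({v | put Q e (some c) v ≠ none ∧ play G Q c e v = none} : Set V).ncard ≤ 1)
    (hne : play G Q c e ≠ Q) :
    phi G (play G Q c e) ≤ phi G Q ∧
      (¬ (goArena G).mv (!c) (play G Q c e) Q → phi G (play G Q c e) + 1 ≤ phi G Q) := by
  have hput : ∀ v d, play G Q c e v = some d → put Q e (some c) v = some d := fun v d h =>
    clear_some (clear_some h)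
  by_cases hem : ({v | put Q e (some c) v ≠ none ∧ play G Q c e v = none} : Set V) = ∅
  · -- nothing is removed
    have h1 : ({v | play G Q c e v = none} : Set V) ⊂ {v | Q v = none} := by
      refine ⟨fun v hv => ?_, fun hcon => ?_⟩
      · have hv' : play G Q c e v = none := hv
        by_contra hQ
        have h2 : v ∈ ({v | put Q e (some c) v ≠ none ∧ play G Q c e v = none} : Set V) := by
          refine ⟨?_, hv'⟩
          by_cases hve : v = e
          · subst hve
            exact absurd he hQ
          · rw [put_ne _ hve]
            exact hQ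
        rw [hem] at h2
        exact h2
      · have h3 : play G Q c e e = none := hcon he
        have h2 : e ∈ ({v | put Q e (some c) v ≠ none ∧ play G Q c e v = none} : Set V) :=
          ⟨by rw [put_same]; exact Option.some_ne_none _, h3⟩
        rw [hem] at h2
        exact h2
    have h4 : em (play G Q c e) + 1 ≤ em Q := Set.ncard_lt_ncard h1 (Set.toFinite _)
    have h5 : phi G (play G Q c e) + 1 ≤ phi G Q := by
      unfold phi
      have h6 := Nat.mul_le_mul_right (2 * Nat.card V + 1) h4
      rw [add_mul, one_mul] at h6
      omega
    exact ⟨by omega, fun _ => h5⟩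
  · obtain ⟨v, hv1, hv2⟩ := Set.nonempty_iff_ne_empty.2 hem
    have huniq : ∀ w, put Q e (some c) w ≠ none → play G Q c e w = none → w = v := by
      intro w h1 h2
      exact (Set.ncard_le_one (Set.toFinite _)).1 hone w ⟨h1, h2⟩ v ⟨hv1, hv2⟩
    have hve : v ≠ e := by
      rintro rfl
      apply hne
      funext w
      by_cases hw : w = v
      · subst hw
        rw [hv2, he]
      · by_cases h0 : Q w = none
        · rw [none_of h0 hw, h0]
        · have h1 : play G Q c v w ≠ none := by
            intro h2
            exact hw (huniq w (by rw [put_ne _ hw]; exact h0) h2)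
          obtain ⟨d, hd⟩ := Option.ne_none_iff_exists'.1 h1
          have h3 := hput w d hd
          rw [put_ne _ hw] at h3
          rw [hd, h3]
    have hQv : Q v ≠ none := by
      rw [put_ne _ hve] at hv1
      exact hv1
    obtain ⟨d, hd⟩ := Option.ne_none_iff_exists'.1 hQv
    by_cases hdc : d = c
    · -- an own stone is removed
      exfalso
      subst hdc
      set R := clear G (!d) (put Q e (some d)) with hR
      have hown : ∀ y, (y = e ∨ Q y = some d) → R y = some d := by
        intro y hy
        refine clear_other ?_ (bne_c d).symm
        rcases hy with rfl | hy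
        · exact put_same _ _ _
        · rw [put_ne _ (ne_e he hy), hy]
      have hnl : ¬ Lib G R v := by
        intro hl
        have h1 : play G Q d e v = R v := clear_lib hl
        rw [hv2, hown v (Or.inr hd)] at h1
        cases h1
      obtain ⟨a, u, h1, h2, h3⟩ := hA v hQv
      have h4 : Chain G R v a := chain_mono (c := d) (fun y hy => hown y (Or.inr hy)) hd h1
      by_cases hu : u = e
      · subst hu
        have h5 : Chain G R v u := by
          refine h4.tail ⟨h2, ?_⟩
          rw [hown _ (Or.inl rfl), hown a (Or.inr (by rw [chain_eq h1, hd]))]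
        have h6 : ¬ Lib G R u := fun hl => hnl (lib_chain h5 hl)
        have h7 : play G Q d u u = none := clear_dead (hown u (Or.inl rfl)) h6
        exact hve (huniq u (by rw [put_same]; exact Option.some_ne_none _) h7).symm
      · exact hnl ⟨a, u, h4, h2, clear_none (by rw [put_ne _ hu, h3])⟩
    · have hd' := bool_cases hdc
      subst hd'
      have hstay : ∀ w, Q w = some (!c) → w ≠ v → play G Q c e w = some (!c) := by
        intro w hw hwv
        have hwe := ne_e he hw
        have h1 : play G Q c e w ≠ none := by
          intro h2
          exact hwv (huniq w (by rw [put_ne _ hwe, hw]; exact Option.some_ne_none _) h2)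
        obtain ⟨d', hd'⟩ := Option.ne_none_iff_exists'.1 h1
        have h3 := hput w d' hd'
        rw [put_ne _ hwe, hw] at h3
        rw [hd', h3]
      have hemp : em (play G Q c e) ≤ em Q := by
        have h1 : ({w | play G Q c e w = none} : Set V) ⊆ insert v (({w | Q w = none} : Set V) \ {e}) := by
          intro w hw
          have hw' : play G Q c e w = none := hw
          by_cases hwv : w = v
          · exact Or.inl hwv
          · right
            by_cases h0 : put Q e (some c) w = none
            · have hwe : w ≠ e := by
                rintro rfl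
                rw [put_same] at h0
                cases h0
              rw [put_ne _ hwe] at h0
              exact ⟨h0, hwe⟩
            · exact absurd (huniq w h0 hw') hwv
        have h2 : (({w | Q w = none} : Set V) \ {e}).ncard + 1 = em Q :=
          Set.ncard_sdiff_singleton_add_one (show e ∈ ({w | Q w = none} : Set V) from he)
            (Set.toFinite _)
        have h3 := Set.ncard_le_ncard h1 (Set.toFinite _)
        have h4 := Set.ncard_insert_le v (({w | Q w = none} : Set V) \ {e})
        unfold em at h2 ⊢
        omega
      have hup := eye_up hA he hd hv2 hstay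
      have hdown := eye_down (G := G) (P := Q) (c := c) (e := e) he
      have hm1 := mu_eq G Q c
      have hm2 := mu_eq G (play G Q c e) c
      have hm3 := mu_le G (play G Q c e)
      have hmul := Nat.mul_le_mul_right (2 * Nat.card V + 1) hemp
      refine ⟨by unfold phi; omega, fun hirr => ?_⟩
      have hnot : e ∉ eyes G Q (!c) := by
        intro hey
        apply hirr
        obtain ⟨-, u, -, -, h3, -, -, h6⟩ := ko_of hA he hey.2 hd hv2 hstay
        exact ⟨u, by rw [h3, put_same], h6.symm, hne.symm⟩
      have hneq : (eyes G Q (!c)).ncard ≠ (eyes G (play G Q c e) (!c)).ncard + 1 :=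
        fun h => hnot (eye_eq he h)
      unfold phi
      omega

end

/-- Module ONE. -/
theorem hONE : StONE := by
  intro V _ G P hP k x hx
  have key : (x = P ∧ k = 0) ∨
      (Alive G x ∧ phi G x + k ≤ Nat.card V * (2 * Nat.card V + 1) + 2 * Nat.card V + 1) := by
    induction hx with
    | refl => exact Or.inl ⟨rfl, rfl⟩
    | rev k c x y hxr hmv hmv' ih =>
      obtain ⟨e, he, hy, hne⟩ := hmv
      subst hy
      right
      rcases ih with ⟨rfl, rfl⟩ | ⟨hA, hle⟩
      · refine ⟨alive_play _ _ _, ?_⟩
        have := phi_le G (play G x c e)
        omega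
      · refine ⟨alive_play _ _ _, ?_⟩
        have h1 := (step G hA he (hP k x hxr c e he) hne).1
        omega
    | irr k c x y hxr hmv hmv' ih =>
      obtain ⟨e, he, hy, hne⟩ := hmv
      subst hy
      right
      rcases ih with ⟨rfl, rfl⟩ | ⟨hA, hle⟩
      · refine ⟨alive_play _ _ _, ?_⟩
        have := phi_le G (play G x c e)
        omega
      · refine ⟨alive_play _ _ _, ?_⟩
        have h1 := (step G hA he (hP k x hxr c e he) hne).2 hmv'
        omega
  rcases key with ⟨_, h⟩ | ⟨_, h⟩
  · omega
  · nlinarith

end Pool.Agent.Helper60.GS
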